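import Pool.Agent.H75.GS.Targets2

/-!
# SEL: the choice of the row
-/

set_option autoImplicit false

namespace Pool.Agent.H4.GSQ

open Finset Filter Pool.Agent.H6.NB Pool.Agent.H70.OQ Pool.Agent.H75.GS

lemma sel_ic_mono {p q : Prop} (h : p → q) : ic p ≤ ic q := by
  unfold ic
  by_cases hp : p
  · rw [if_pos hp, if_pos (h hp)]
  · rw [if_neg hp]
    split_ifs <;> norm_num

/-- the magnitude of the only changed string -/
lemma sel_mg (Q : QAlg) (O O' : List Bool → Bool) (p : List Bool) (L : ℕ) (hQ : Q.Short L)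
    (h : ∀ w : List Bool, w.length ≤ L → w ≠ p → O' w = O w) : mg Q O O' ≤ qm Q O p := by
  unfold mg qm
  refine sum_le_sum fun t _ => sum_le_sum fun z _ => ?_
  refine mul_le_mul_of_nonneg_right (sel_ic_mono ?_) (by positivity)
  rintro ⟨w, hw, hne⟩
  by_cases hp : w = p
  · rw [hw, hp]
  · exact absurd (h w (hQ z w hw) hp) hne

open Classical in
/-- Markov's inequality for finite sums -/
lemma sel_markov {X : Type} (N0 : Finset X) (f : X → ℝ) (hf : ∀ x ∈ N0, 0 ≤ f x) (η : ℝ) :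
    ((N0.filter fun x => η < f x).card : ℝ) * η ≤ ∑ x ∈ N0, f x := by
  calc ((N0.filter fun x => η < f x).card : ℝ) * η = ∑ x ∈ N0.filter (fun x => η < f x), η := by
        rw [sum_const, nsmul_eq_mul]
    _ ≤ ∑ x ∈ N0.filter (fun x => η < f x), f x :=
        sum_le_sum fun x hx => (mem_filter.1 hx).2.le
    _ ≤ ∑ x ∈ N0, f x := sum_le_sum_of_subset_of_nonneg (filter_subset _ _)
        fun x hx _ => hf x hx

/-- the bound for the probabilities -/
lemma sel_prob (hBBH : T_BBH) (Q : QAlg) (O O' : List Bool → Bool) (τ n : ℝ) (hn : 0 < n)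
    (hT : (Q.T : ℝ) ≤ τ) (hm : mg Q O O' ≤ 8 * τ / n) (h : 4608 * τ ^ 2 < n) :
    |Q.prob O' - Q.prob O| < 1 / 6 := by
  obtain ⟨h0, -, -, h3⟩ := hBBH Q O O'
  have hT0 : (0 : ℝ) ≤ Q.T := Nat.cast_nonneg _
  have hτ : 0 ≤ τ := hT0.trans hT
  refine h3.trans_lt ?_
  have h4 : (Q.T : ℝ) * mg Q O O' ≤ τ * (8 * τ / n) := mul_le_mul hT hm h0 hτ
  have h5 : τ * (8 * τ / n) < (1 / 24) ^ 2 := by
    rw [show τ * (8 * τ / n) = 8 * τ ^ 2 / n by ring, div_lt_iff₀ hn]
    nlinarith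
  have h6 : √(Q.T * mg Q O O') < 1 / 24 := by
    rw [Real.sqrt_lt' (by norm_num)]
    exact h4.trans_lt h5
  linarith

open Classical in
/-- the bad rows for one algorithm -/
lemma sel_one (hBBH : T_BBH) (hMGS : T_MGS) {X : Type} (N0 : Finset X) (OT : List Bool → Bool)
    (Ox : X → List Bool → Bool) (ps : X → List Bool) (Q : X → QAlg) (LQ : ℕ) (τ T : ℝ)
    (hps : Function.Injective ps) (hQ : ∀ x, (Q x).Short LQ ∧ ((Q x).T : ℝ) ≤ T) (hT : T ≤ τ)
    (h1 : ∀ x ∈ N0, ∀ w : List Bool, w.length ≤ LQ → w ≠ ps x → Ox x w = OT w)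
    (h2 : ∀ x ∈ N0, qm (Q x) OT (ps x) ≤ 8 * τ / N0.card) (hn0 : (0 : ℝ) < N0.card)
    (hN : 4608 * τ ^ 2 < N0.card) (hτ : 0 < τ) : ∃ D : Finset X,
      8 * τ * (D.card : ℝ) ≤ T * N0.card + 8 * τ ∧ ∀ x ∈ N0, x ∉ D →
        ∃ x', (x' = x ∧ (Q x').prob (Ox x) < 2 / 3) ∨
          (x' ≠ x ∧ x' ∈ N0 ∧ 1 / 3 < (Q x').prob (Ox x)) := by
  have hT0 : ∀ x : X, 0 ≤ T := fun x => (Nat.cast_nonneg _).trans (hQ x).2
  by_cases hc : ∀ x ∈ N0, (Q x).prob OT < 1 / 2
  · refine ⟨∅, ?_, fun x hx _ => ⟨x, Or.inl ⟨rfl, ?_⟩⟩⟩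
    · obtain ⟨x, -⟩ : N0.Nonempty := by
        rw [← card_pos]; exact_mod_cast hn0
      have := hT0 x
      simp only [card_empty, Nat.cast_zero, mul_zero]
      positivity
    · have hm : mg (Q x) OT (Ox x) ≤ 8 * τ / N0.card :=
        (sel_mg (Q x) OT (Ox x) (ps x) LQ (hQ x).1 (h1 x hx)).trans (h2 x hx)
      have h3 := sel_prob hBBH (Q x) OT (Ox x) τ N0.card hn0 ((hQ x).2.trans hT) hm hN
      have h4 := (abs_lt.1 h3).2
      have h5 := hc x hx
      linarith
  · push Not at hc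
    obtain ⟨x', hx', hp'⟩ := hc
    have hmg0 : ∀ x, 0 ≤ mg (Q x') OT (Ox x) := fun x => (hBBH (Q x') OT (Ox x)).1
    have hs : ∑ x ∈ N0, mg (Q x') OT (Ox x) ≤ (Q x').T * (1 : ℕ) := by
      refine hMGS X N0 (Q x') OT Ox LQ 1 (hQ x').1 fun w hw => ?_
      refine card_le_one.2 fun x hx y hy => ?_
      obtain ⟨hx0, hx1⟩ := mem_filter.1 hx
      obtain ⟨hy0, hy1⟩ := mem_filter.1 hy
      have e1 : w = ps x := by
        by_contra hne
        exact hx1 (h1 x hx0 w hw hne)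
      have e2 : w = ps y := by
        by_contra hne
        exact hy1 (h1 y hy0 w hw hne)
      exact hps (e1.symm.trans e2)
    rw [Nat.cast_one, mul_one] at hs
    set C : Finset X := N0.filter fun x => 8 * τ / N0.card < mg (Q x') OT (Ox x) with hC
    have hCc : 8 * τ * (C.card : ℝ) ≤ T * N0.card := by
      have hmk := sel_markov N0 (fun x => mg (Q x') OT (Ox x)) (fun x _ => hmg0 x)
        (8 * τ / N0.card)
      rw [← hC] at hmk
      have h' : (C.card : ℝ) * (8 * τ / N0.card) ≤ T := hmk.trans (hs.trans (hQ x').2)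
      have e : (C.card : ℝ) * (8 * τ / N0.card) = 8 * τ * C.card / N0.card := by ring
      rwa [e, div_le_iff₀ hn0] at h'
    refine ⟨insert x' C, ?_, fun x hx hxn => ⟨x', Or.inr ⟨?_, hx', ?_⟩⟩⟩
    · have h3 : ((insert x' C).card : ℝ) ≤ C.card + 1 := by exact_mod_cast card_insert_le x' C
      calc 8 * τ * ((insert x' C).card : ℝ) ≤ 8 * τ * (C.card + 1) := by gcongr
        _ = 8 * τ * C.card + 8 * τ := by ring
        _ ≤ _ := by linarith
    · rintro rfl
      exact hxn (mem_insert_self _ _)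
    · have hm : mg (Q x') OT (Ox x) ≤ 8 * τ / N0.card := by
        by_contra hcon
        exact hxn (mem_insert_of_mem (mem_filter.2 ⟨hx, not_le.1 hcon⟩))
      have h3 := sel_prob hBBH (Q x') OT (Ox x) τ N0.card hn0 ((hQ x').2.trans hT) hm hN
      have h4 := (abs_lt.1 h3).1
      linarith

open Classical in
theorem pf_SEL (hBBH : T_BBH) (hHTS : T_HTS) (hMGS : T_MGS) : T_SEL := by
  intro X ι J _ _ N0 OT Ox ps Q S E LQ LS M τ τS η hps hQ h1 h2 h3 h4 h5 hNJ hN hτ hη hM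
  have hNJ' : 8 * (Fintype.card J : ℝ) < N0.card := by exact_mod_cast hNJ
  have hn0 : (0 : ℝ) < N0.card := lt_of_le_of_lt (by positivity) hNJ'
  set n : ℝ := (N0.card : ℝ) with hn
  have hhit : ∀ i x, 0 ≤ (S i).hit (Ox x) (E x) := by
    intro i x
    unfold Sampler.hit
    refine sum_nonneg fun z _ => ?_
    split_ifs
    · positivity
    · exact le_rfl
  -- the samplers
  have hsum : ∀ i, ∑ x ∈ N0, (S i).hit (Ox x) (E x) ≤ 2 * M + 8 * τS * M := by
    intro i
    obtain ⟨a1, -, a3⟩ := hHTS (S i) OT OT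
    have b1 : ∑ x ∈ N0, (S i).hit OT (E x) ≤ M := a3 X N0 E M h5
    have b2 := hMGS X N0 (S i).alg OT Ox LS M (h3 i).1 h4
    have b3 : ∀ x ∈ N0, (S i).hit (Ox x) (E x) ≤ 2 * (S i).hit OT (E x) +
        2 * (4 * (S i).alg.T * mg (S i).alg OT (Ox x)) := by
      intro x _
      have c1 := (hHTS (S i) OT (Ox x)).1 (E x)
      have c2 := (hBBH (S i).alg OT (Ox x)).2.2.1
      linarith
    have hT0 : (0 : ℝ) ≤ (S i).alg.T := Nat.cast_nonneg _
    have hM0 : (0 : ℝ) ≤ M := Nat.cast_nonneg _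
    calc ∑ x ∈ N0, (S i).hit (Ox x) (E x) ≤ ∑ x ∈ N0, (2 * (S i).hit OT (E x) +
        2 * (4 * (S i).alg.T * mg (S i).alg OT (Ox x))) := sum_le_sum b3
      _ = 2 * ∑ x ∈ N0, (S i).hit OT (E x) +
          8 * (S i).alg.T * ∑ x ∈ N0, mg (S i).alg OT (Ox x) := by
        rw [sum_add_distrib, ← mul_sum, ← mul_sum, ← mul_sum]; ring
      _ ≤ 2 * M + 8 * (S i).alg.T * ((S i).alg.T * M) := by gcongr
      _ = 2 * M + 8 * ((S i).alg.T ^ 2) * M := by ring
      _ ≤ 2 * M + 8 * τS * M := by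
        have := (h3 i).2
        gcongr
  set F : X → ℝ := fun x => ∑ i, (S i).hit (Ox x) (E x) with hF
  have hF0 : ∀ x, 0 ≤ F x := fun x => sum_nonneg fun i _ => hhit i x
  have hFs : 8 * ∑ x ∈ N0, F x ≤ η * n := by
    rw [hF, sum_comm]
    calc 8 * ∑ i, ∑ x ∈ N0, (S i).hit (Ox x) (E x) ≤ 8 * ∑ _i : ι, (2 * M + 8 * τS * M) := by
          gcongr with i _
          exact hsum i
      _ = 8 * (Fintype.card ι * (2 * M + 8 * τS * M)) := by
          rw [sum_const, nsmul_eq_mul, card_univ]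
      _ ≤ _ := hM
  -- the bad rows of the samplers
  set B : Finset X := N0.filter fun x => η < F x with hB
  have hBc : 8 * (B.card : ℝ) ≤ n := by
    have := sel_markov N0 F (fun x _ => hF0 x) η
    rw [← hB] at this
    have h' : 8 * (B.card : ℝ) * η ≤ n * η := by nlinarith
    exact le_of_mul_le_mul_right h' hη
  have hgood : ∀ x ∈ N0, x ∉ B → ∀ i, (S i).hit (Ox x) (E x) ≤ η := by
    intro x hx hxB i
    have h' : F x ≤ η := by
      by_contra hc
      exact hxB (mem_filter.2 ⟨hx, not_le.1 hc⟩)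
    exact (single_le_sum (f := fun i => (S i).hit (Ox x) (E x)) (fun i _ => hhit i x)
      (mem_univ i)).trans h'
  -- the bad rows of the algorithms
  have hD : ∀ j, ∃ D : Finset X, 8 * τ * (D.card : ℝ) ≤ τ / Fintype.card J * n + 8 * τ ∧
      ∀ x ∈ N0, x ∉ D → ∃ x', (x' = x ∧ (Q j x').prob (Ox x) < 2 / 3) ∨
        (x' ≠ x ∧ x' ∈ N0 ∧ 1 / 3 < (Q j x').prob (Ox x)) := by
    intro j
    have hJ : (1 : ℝ) ≤ Fintype.card J := by
      have : 0 < Fintype.card J := Fintype.card_pos_iff.2 ⟨j⟩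
      exact_mod_cast this
    refine sel_one hBBH hMGS N0 OT Ox ps (Q j) LQ τ (τ / Fintype.card J) hps
      (fun x => ⟨(hQ j x).1, ?_⟩) ?_ h1 (h2 j) hn0 hN hτ
    · rw [le_div_iff₀ (by linarith)]
      have := (hQ j x).2
      linarith
    · exact div_le_self hτ.le hJ
  choose D hD1 hD2 using hD
  have hDs : 8 * ∑ j, ((D j).card : ℝ) ≤ n + 8 * Fintype.card J := by
    have e1 : τ * (8 * ∑ j, ((D j).card : ℝ)) ≤ τ * (n + 8 * Fintype.card J) := by
      calc τ * (8 * ∑ j, ((D j).card : ℝ)) = ∑ j, 8 * τ * ((D j).card : ℝ) := by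
            rw [← mul_sum]; ring
        _ ≤ ∑ _j : J, (τ / Fintype.card J * n + 8 * τ) := sum_le_sum fun j _ => hD1 j
        _ = Fintype.card J * (τ / Fintype.card J) * n + 8 * τ * Fintype.card J := by
            rw [sum_const, nsmul_eq_mul, card_univ]; ring
        _ ≤ τ * n + 8 * τ * Fintype.card J := by
            have : (Fintype.card J : ℝ) * (τ / Fintype.card J) ≤ τ := by
              rcases (Nat.cast_nonneg (Fintype.card J) : (0 : ℝ) ≤ Fintype.card J).eq_or_lt with h | h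
              · rw [← h]; simp; exact hτ.le
              · rw [mul_div_cancel₀ _ h.ne']
            gcongr
        _ = _ := by ring
    exact le_of_mul_le_mul_left e1 hτ
  obtain ⟨x, hx0, hxn⟩ : ∃ x ∈ N0, x ∉ B ∪ univ.biUnion D := by
    by_contra hcon
    push Not at hcon
    have hcard : (N0.card : ℝ) ≤ ((B ∪ univ.biUnion D).card : ℝ) := by
      exact_mod_cast card_le_card hcon
    have h' : ((B ∪ univ.biUnion D).card : ℝ) ≤ B.card + ∑ j, ((D j).card : ℝ) := by
      have e1 := card_union_le B (univ.biUnion D)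
      have e2 : (univ.biUnion D).card ≤ ∑ j, (D j).card := card_biUnion_le
      have : (B ∪ univ.biUnion D).card ≤ B.card + ∑ j, (D j).card := by omega
      exact_mod_cast this
    rw [← hn] at hcard
    linarith
  rw [mem_union, mem_biUnion] at hxn
  push Not at hxn
  obtain ⟨hxB, hxD⟩ := hxn
  exact ⟨x, hx0, fun j => hD2 j x hx0 (hxD j (mem_univ j)), hgood x hx0 hxB⟩

end Pool.Agent.H4.GSQ
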