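import Pool.Agent.H75.GS.Targets

/-!
# CHS: only few rows matter for short strings and for the answers to frozen instances
-/

set_option autoImplicit false

namespace Pool.Agent.H4.GSQ

open Finset Filter Pool.Agent.H6.NB Pool.Agent.H70.OQ Pool.Agent.H75.GS

/-- levels and lengths -/
lemma chs_lv {n a0 : ℕ} (hn : 2 ≤ n) {s : List Bool} (hs : n ^ 2 ≤ s.length) :
    lv n s < a0 ↔ s.length < n ^ 2 ^ a0 := by
  unfold lv
  have hs0 : s.length ≠ 0 := by
    have : 0 < n ^ 2 := by positivity
    omega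
  have hm : Nat.log n s.length ≠ 0 := by
    have h1 : 2 ≤ Nat.log n s.length := by
      rw [Nat.le_log_iff_pow_le (by omega) hs0]
      exact hs
    omega
  constructor
  · intro h
    exact (Nat.log_lt_iff_lt_pow (by omega) hs0).1 ((Nat.log_lt_iff_lt_pow (by norm_num) hm).1 h)
  · intro h
    exact (Nat.log_lt_iff_lt_pow (by norm_num) hm).2 ((Nat.log_lt_iff_lt_pow (by omega) hs0).2 h)

lemma chs_pst (n : ℕ) (x : Xn n) (y : Ys n 0) : (pst n x y).length = 3 * n + 1 := by
  unfold pst
  simp only [List.length_cons, List.length_append, List.length_ofFn]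
  ring

lemma chs_kst {B Ω : Type} {nn qb : Ω → ℕ} (T : B → Bool) (e e' : Ω → Bool) (P : Blk nn qb) :
    kst e (vlG T e' P) = vlG T e P := by
  funext c
  cases c <;> rfl

/-- the tables differ only in one row -/
lemma chs_tab {n : ℕ} (p : Wn n) (v : Nn n 1) :
    ∃ y : Xn n, ∀ x : Xn n, UU n p x v ≠ TT n p v → x = y := by
  let v' : Xn n × Ys n 0 := v
  refine ⟨v'.1, fun x h => ?_⟩
  by_contra hne
  apply h
  change ((p.2 v'.1 || decide (v'.1 = x)) && decide (v'.2 = p.1 v'.1)) =
    (p.2 v'.1 && decide (v'.2 = p.1 v'.1))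
  have h2 : decide (v'.1 = x) = false := by
    rw [decide_eq_false_iff_not]
    exact fun e => hne e.symm
  rw [h2, Bool.or_false]

open Classical in
theorem pf_CHS (hWRF : T_WRF) (hWRT : T_WRT) (hLKX : T_LKX) (hMSK : T_MSK) (hSYX : T_SYX)
    (hMEG : T_MEG) (hEXG : T_EXG) : T_CHS := by
  intro n a a0 M A σ₀ O₀ OT Ox p κ P D S t d few k hW hSy hS ht hD hE hM1 hkM
  obtain ⟨hT, hX⟩ := hWRT n a a0 A σ₀ O₀ OT Ox p κ P D S t d hW hSy hS ht hD
  have hF := hWRF n a a0 A σ₀ O₀ OT Ox p κ P hW
  obtain ⟨-, hm2, hm3⟩ := hMSK A hW.loc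
  have hn := hW.n2
  have ha : 0 < a := lt_of_le_of_lt (Nat.zero_le _) hW.aa
  have hpow : n ^ 2 ^ a0 ≤ n ^ 2 ^ a :=
    Nat.pow_le_pow_right (by omega) (Nat.pow_le_pow_right (by norm_num) hW.aa.le)
  have hlen : ∀ x, n ^ 2 ≤ (pst n x (p.1 x)).length ^ 2 := fun x => by
    rw [chs_pst]
    exact Nat.pow_le_pow_left (by omega) 2
  -- the values of the oracles
  have vT : ∀ w : List Bool, w.length ≤ n ^ 2 ^ a → OT w =
      vlG (TT n p) (fun s : Om n (2 ^ a) => OT (key s.1)) P (clg 1 n (2 ^ a) O₀ w) :=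
    hLKX 1 A A n (2 ^ a) σ₀ O₀ OT (TT n p) κ P hW.loc (fun _ _ _ => Iff.rfl) hn hW.b0 hW.bT
  have vX : ∀ x, ∀ w : List Bool, w.length ≤ n ^ 2 ^ a → Ox x w =
      vlG (UU n p x) (fun s : Om n (2 ^ a) => Ox x (key s.1)) P (clg 1 n (2 ^ a) O₀ w) := fun x =>
    hLKX 1 A (mskA (n ^ 2 ^ a0) (pst n x (p.1 x)) A) n (2 ^ a) σ₀ O₀ (Ox x) (UU n p x) κ P hW.loc
      (fun s O hs => hm3 _ _ s O (hs.trans_le (hlen x))) hn hW.b0 (hW.bx x)
  -- typicality
  unfold Evt at hE
  push Not at hE
  obtain ⟨-, hE1, hE2⟩ := hE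
  rw [← hT] at hE1 hE2
  constructor
  · intro w hw
    have e1 := vT w hw
    rcases hc : clg 1 n (2 ^ a) O₀ w with b | v | s | ⟨s, i, v⟩
    · have : ((univ.filter fun x => p.2 x = false).filter fun x => Ox x w ≠ OT w) = ∅ := by
        refine filter_eq_empty_iff.2 fun x _ => ?_
        rw [e1, vX x w hw, hc]
        exact fun h => h rfl
      rw [this]; simp
    · obtain ⟨y, hy⟩ := chs_tab p v
      refine le_trans (card_le_one.2 fun x hx x' hx' => ?_) hM1
      rw [mem_filter] at hx hx'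
      have h2 := hx.2
      have h3 := hx'.2
      rw [e1, vX x w hw, hc] at h2
      rw [e1, vX x' w hw, hc] at h3
      rw [hy x h2, hy x' h3]
    · refine le_trans (card_le_card (t := dsG (accG (Daw D (fun s => lv n s.1) a0) P) a (TT n p)
        (UU n p) (fun s : Om n (2 ^ a) => OT (key s.1)) s) ?_)
        ((hE2 s (hSy.lt s)).trans (hkM _ (hSy.lt s)))
      intro x hx
      rw [mem_filter, mem_filter] at hx
      have h2 := hx.2
      rw [e1, vX x w hw, hc] at h2
      have h3 := congrFun (hX x hx.1.2) s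
      unfold dsG
      rw [mem_filter]
      refine ⟨mem_univ _, ?_⟩
      unfold dlG
      rw [← h3]
      change xor (OT (key s.1)) (Ox x (key s.1)) = true
      change Ox x (key s.1) ≠ OT (key s.1) at h2
      revert h2
      cases Ox x (key s.1) <;> cases OT (key s.1) <;> simp
    · have : ((univ.filter fun x => p.2 x = false).filter fun x => Ox x w ≠ OT w) = ∅ := by
        refine filter_eq_empty_iff.2 fun x _ => ?_
        rw [e1, vX x w hw, hc]
        exact fun h => h rfl
      rw [this]; simp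
  · intro s
    rcases le_or_gt (n ^ 2 ^ a0) s.length with h1 | h1
    · have : ((univ.filter fun x => p.2 x = false).filter fun x =>
          s ∈ {s : List Bool | s.length < n ^ 2 ^ a0 ∧
            ¬ (A s (msk (pst n x (p.1 x)) (Ox x)) ↔ A s (Ox x))}) = ∅ := by
        refine filter_eq_empty_iff.2 fun x _ h => ?_
        exact absurd h.1 (not_lt.2 h1)
      rw [this]; simp
    rcases lt_or_ge s.length (n ^ 2) with h2 | h2
    · have : ((univ.filter fun x => p.2 x = false).filter fun x =>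
          s ∈ {s : List Bool | s.length < n ^ 2 ^ a0 ∧
            ¬ (A s (msk (pst n x (p.1 x)) (Ox x)) ↔ A s (Ox x))}) = ∅ := by
        refine filter_eq_empty_iff.2 fun x _ h => ?_
        exact h.2 (hm2 s _ _ (h2.trans_le (hlen x)))
      rw [this]; simp
    -- a frozen instance
    obtain ⟨s', rfl⟩ : ∃ s' : Om n (2 ^ a), s'.1 = s := ⟨⟨s, h2, h1.trans_le hpow⟩, rfl⟩
    have hlv : lv n s'.1 < a0 := (chs_lv hn h2).2 h1
    set eT : Om n (2 ^ a) → Bool := fun s => OT (key s.1) with heT
    have hSyD := (hSYX (Nn n 1) (Om n (2 ^ a)) (fun s => ns s.1) (fun s => qs s.1) D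
      (fun s => lv n s.1) S t d a a0 hS ht hSy).1 eT
    have hLv := (hMEG (Nn n 1) (Om n (2 ^ a)) (fun s => ns s.1) (fun s => qs s.1)
      (Dfr D (fun s => lv n s.1) a0 eT) (fun s => lv n s.1) S t d a hSyD P).1
    have hX3 := (hEXG (Nn n 1) (Om n (2 ^ a)) (accG (Dfr D (fun s => lv n s.1) a0 eT) P)
      (fun s => lv n s.1) a hLv).2.2.1
    refine le_trans (card_le_card (t := dsG (accG (Dfr D (fun s => lv n s.1) a0 eT) P) a (TT n p)
      (UU n p) eT s') ?_) ((hE1 s' (hSy.lt s')).trans (hkM _ ha))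
    intro x hx
    rw [mem_filter, mem_filter] at hx
    obtain ⟨⟨-, hx1⟩, -, hx2⟩ := hx
    obtain ⟨-, -, hF3, hF4⟩ := hF x hx1
    unfold dsG
    rw [mem_filter]
    refine ⟨mem_univ _, ?_⟩
    rw [hX3]
    -- the answers of the frozen instances
    have hacc : ∀ T e, accG (Dfr D (fun s => lv n s.1) a0 eT) P s' T e = accG D P s' T eT := by
      intro T e
      unfold accG Dfr
      rw [chs_kst]
      have : decide (lv n s'.1 < a0) = true := decide_eq_true hlv
      simp only [this, Bool.true_and]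
    rw [hacc, hacc]
    have hAT : A s'.1 OT ↔ accG D P s' (TT n p) eT = true := by
      rw [← hD]
      refine hW.loc s'.1 _ _ fun w hw => vT w ?_
      have h4 : w.length ≤ w.length ^ 2 := Nat.le_self_pow (by norm_num) _
      exact h4.trans (hw.trans s'.2.2.le)
    have hAX : A s'.1 (Ox x) ↔
        accG D P s' (UU n p x) (fun s : Om n (2 ^ a) => Ox x (key s.1)) = true := by
      rw [← hD]
      refine hW.loc s'.1 _ _ fun w hw => vX x w ?_
      have h4 : w.length ≤ w.length ^ 2 := Nat.le_self_pow (by norm_num) _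
      exact h4.trans (hw.trans s'.2.2.le)
    have hlow : accG D P s' (UU n p x) (fun s : Om n (2 ^ a) => Ox x (key s.1)) =
        accG D P s' (UU n p x) eT := by
      unfold accG
      refine hSy.low s' _ _ fun c hc => ?_
      cases c with
      | cst b => rfl
      | bas v => rfl
      | key s'' =>
        have h5 : lv n s''.1 < a0 := lt_trans hc hlv
        exact hF3 s''.1 ((chs_lv hn s''.2.1).1 h5)
      | blk _ _ _ => rfl
    rw [hlow] at hAX
    have hne : ¬ (accG D P s' (TT n p) eT = true ↔ accG D P s' (UU n p x) eT = true) := by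
      rw [← hAT, ← hAX, ← hF4 s'.1 h1]
      exact hx2
    revert hne
    cases accG D P s' (TT n p) eT <;> cases accG D P s' (UU n p x) eT <;> simp

end Pool.Agent.H4.GSQ
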